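import Mathlib

set_option autoImplicit false

namespace Pool.Agent.Helper678.SkewDiv

open SkewMonoidAlgebra

section Dom

variable {K G : Type} [Field K] [Group G] [UniqueProds G] [MulSemiringAction G K]

theorem noZeroDivisors : NoZeroDivisors (SkewMonoidAlgebra K G) := by
  classical
  refine ⟨fun {a b} hab => ?_⟩
  by_contra hcon
  push Not at hcon
  obtain ⟨ha, hb⟩ := hcon
  have ha' : a.support.Nonempty := by
    rw [Finset.nonempty_iff_ne_empty]
    intro h
    exact ha (SkewMonoidAlgebra.support_eq_empty.mp h)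
  have hb' : b.support.Nonempty := by
    rw [Finset.nonempty_iff_ne_empty]
    intro h
    exact hb (SkewMonoidAlgebra.support_eq_empty.mp h)
  obtain ⟨g, hg, h, hh, hu⟩ := UniqueProds.uniqueMul_of_nonempty ha' hb'
  have key : (a * b).coeff (g * h) = a.coeff g * g • b.coeff h := by
    rw [coeff_mul]
    change (∑ g' ∈ a.support, ∑ h' ∈ b.support, if g' * h' = g * h then
      a.coeff g' * g' • b.coeff h' else 0) = _
    rw [Finset.sum_eq_single_of_mem g hg, Finset.sum_eq_single_of_mem h hh]
    · simp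
    · intro h' hh' hne
      rw [if_neg]
      intro heq
      exact hne (hu hg hh' heq).2
    · intro g' hg' hne
      apply Finset.sum_eq_zero
      intro h' hh'
      rw [if_neg]
      intro heq
      exact hne (hu hg' hh' heq).1
  rw [hab] at key
  have h1 : a.coeff g ≠ 0 := mem_support_iff.mp hg
  have h2 : b.coeff h ≠ 0 := mem_support_iff.mp hh
  have h3 : g • b.coeff h ≠ 0 := by
    intro h4
    apply h2
    have := congrArg (fun t => g⁻¹ • t) h4
    simpa using this
  have h4 : a.coeff g * g • b.coeff h ≠ 0 := mul_ne_zero h1 h3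
  apply h4
  rw [← key]
  simp

end Dom

/-- The group. -/
abbrev G : Type := Multiplicative (ℕ →₀ ℤ)

/-- The boxes. -/
noncomputable def box (n N : ℕ) : Finset (ℕ →₀ ℤ) :=
  Finset.finsupp (Finset.range n) (fun _ => Finset.Icc (-(N : ℤ)) N)

theorem mem_box {n N : ℕ} {g : ℕ →₀ ℤ} :
    g ∈ box n N ↔ g.support ⊆ Finset.range n ∧ ∀ i, |g i| ≤ N := by
  rw [box, Finset.mem_finsupp_iff]
  constructor
  · rintro ⟨h1, h2⟩
    refine ⟨h1, fun i => ?_⟩
    by_cases hi : i ∈ Finset.range n
    · have := h2 i hi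
      rw [Finset.mem_Icc] at this
      exact abs_le.mpr this
    · have : g i = 0 := by
        by_contra hne
        exact hi (h1 (Finsupp.mem_support_iff.mpr hne))
      rw [this]; simp
  · rintro ⟨h1, h2⟩
    refine ⟨h1, fun i _ => ?_⟩
    rw [Finset.mem_Icc]
    exact abs_le.mp (h2 i)

theorem card_box (n N : ℕ) : (box n N).card = (2 * N + 1) ^ n := by
  rw [box, Finset.card_finsupp, Finset.prod_const, Finset.card_range, Int.card_Icc]
  congr 1
  omega

theorem box_mono {n n' N N' : ℕ} (h : n ≤ n') (h' : N ≤ N') : box n N ⊆ box n' N' := by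
  intro g hg
  rw [mem_box] at hg ⊢
  refine ⟨hg.1.trans (Finset.range_mono h), fun i => (hg.2 i).trans ?_⟩
  exact_mod_cast h'

theorem box_add {n N N' : ℕ} {g g' : ℕ →₀ ℤ} (hg : g ∈ box n N) (hg' : g' ∈ box n N') :
    g + g' ∈ box n (N + N') := by
  rw [mem_box] at hg hg' ⊢
  refine ⟨?_, fun i => ?_⟩
  · exact Finsupp.support_add.trans (Finset.union_subset hg.1 hg'.1)
  · rw [Finsupp.add_apply]
    push_cast
    exact (abs_add_le _ _).trans (add_le_add (hg.2 i) (hg'.2 i))

theorem exists_box (S : Finset (ℕ →₀ ℤ)) : ∃ n N, S ⊆ box n N := by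
  classical
  induction S using Finset.induction_on with
  | empty => exact ⟨0, 0, Finset.empty_subset _⟩
  | insert g S _ ih =>
    obtain ⟨n, N, h⟩ := ih
    obtain ⟨n', hn'⟩ : ∃ n', g.support ⊆ Finset.range n' := by
      refine ⟨g.support.sup id + 1, fun i hi => ?_⟩
      rw [Finset.mem_range]
      have := Finset.le_sup (f := id) hi
      simp only [id] at this
      omega
    have hN' : ∀ i, |g i| ≤ ((∑ i ∈ g.support, (g i).natAbs : ℕ) : ℤ) := by
      intro i
      by_cases hi : i ∈ g.support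
      · have := Finset.single_le_sum (f := fun i => (g i).natAbs) (fun _ _ => Nat.zero_le _) hi
        have h2 : ((g i).natAbs : ℤ) ≤ ((∑ i ∈ g.support, (g i).natAbs : ℕ) : ℤ) := by
          exact_mod_cast this
        rwa [Int.natCast_natAbs] at h2
      · rw [Finsupp.notMem_support_iff.mp hi, abs_zero]
        exact Nat.cast_nonneg _
    have hg : g ∈ box n' (∑ i ∈ g.support, (g i).natAbs) := mem_box.mpr ⟨hn', hN'⟩
    refine ⟨max n n', max N (∑ i ∈ g.support, (g i).natAbs), ?_⟩
    rw [Finset.insert_subset_iff]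
    exact ⟨box_mono (le_max_right _ _) (le_max_right _ _) hg,
      h.trans (box_mono (le_max_left _ _) (le_max_left _ _))⟩

theorem growth (n N : ℕ) : ∃ M : ℕ, (2 * (M + N) + 1) ^ n < 2 * (2 * M + 1) ^ n := by
  refine ⟨2 * n * N, ?_⟩
  have hL : (0 : ℝ) < 2 * (2 * n * N + N) + 1 := by positivity
  set L : ℝ := 2 * (2 * n * N + N) + 1 with hLdef
  have h1 : (1 : ℝ) + n * (-(2 * N) / L) ≤ (1 + -(2 * N) / L) ^ n := by
    apply one_add_mul_le_pow
    have : (2 * N : ℝ) / L ≤ 1 := by
      rw [div_le_one hL, hLdef]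
      have : (0 : ℝ) ≤ (n : ℝ) * N := by positivity
      nlinarith [(Nat.cast_nonneg N : (0 : ℝ) ≤ N)]
    have h2 : -(2 * N : ℝ) / L = -((2 * N : ℝ) / L) := by ring
    rw [h2]; linarith
  have h2 : (1 : ℝ) / 2 < 1 + n * (-(2 * N) / L) := by
    have : (n : ℝ) * (2 * N) / L < 1 / 2 := by
      rw [div_lt_iff₀ hL, hLdef]
      have : (0 : ℝ) ≤ (n : ℝ) * N := by positivity
      nlinarith [(Nat.cast_nonneg N : (0 : ℝ) ≤ N)]
    have h3 : (n : ℝ) * (-(2 * N) / L) = -((n : ℝ) * (2 * N) / L) := by ring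
    rw [h3]; linarith
  have h3 : (1 + -(2 * N : ℝ) / L) = (2 * (2 * n * N) + 1) / L := by
    rw [eq_div_iff hL.ne', add_mul, one_mul, div_mul_cancel₀ _ hL.ne', hLdef]
    ring
  rw [h3, div_pow] at h1
  have h4 : (1 : ℝ) / 2 < (2 * (2 * n * N) + 1) ^ n / L ^ n := lt_of_lt_of_le h2 h1
  have hLn : (0 : ℝ) < L ^ n := by positivity
  rw [lt_div_iff₀ hLn] at h4
  have h5 : L ^ n < 2 * (2 * (2 * n * N) + 1) ^ n := by linarith
  have h6 : ((2 * (2 * n * N + N) + 1 : ℕ) : ℝ) ^ n < ((2 * (2 * (2 * n * N) + 1) ^ n : ℕ) : ℝ) := by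
    push_cast
    rw [hLdef] at h5
    exact h5
  exact_mod_cast h6

section Ore

variable {K : Type} [Field K] [MulSemiringAction G K]

omit [MulSemiringAction G K] in
theorem finite_supported (B : Finset G) :
    FiniteDimensional K (Finsupp.supported K K (B : Set G)) :=
  Module.Finite.equiv (Finsupp.supportedEquivFinsupp (M := K) (R := K) (B : Set G)).symm

omit [MulSemiringAction G K] in
theorem finrank_supported (B : Finset G) :
    Module.finrank K (Finsupp.supported K K (B : Set G)) = B.card := by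
  rw [(Finsupp.supportedEquivFinsupp (M := K) (R := K) (B : Set G)).finrank_eq]
  simp

theorem ore (r s : SkewMonoidAlgebra K G) (hs : s ≠ 0) :
    ∃ r' s' : SkewMonoidAlgebra K G, s' ≠ 0 ∧ s' * r = r' * s := by
  classical
  have := noZeroDivisors (K := K) (G := G)
  obtain ⟨n, N, hN⟩ := exists_box
    ((r.support ∪ s.support).map ⟨Multiplicative.toAdd, Multiplicative.toAdd.injective⟩)
  have hr : ∀ g ∈ r.support, Multiplicative.toAdd g ∈ box n N := fun g hg =>
    hN (Finset.mem_map.mpr ⟨g, Finset.mem_union_left _ hg, rfl⟩)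
  have hs' : ∀ g ∈ s.support, Multiplicative.toAdd g ∈ box n N := fun g hg =>
    hN (Finset.mem_map.mpr ⟨g, Finset.mem_union_right _ hg, rfl⟩)
  obtain ⟨M, hM⟩ := growth n N
  let B : Finset G := (box n M).map ⟨Multiplicative.ofAdd, Multiplicative.ofAdd.injective⟩
  let B' : Finset G := (box n (M + N)).map ⟨Multiplicative.ofAdd, Multiplicative.ofAdd.injective⟩
  have hBc : B.card = (2 * M + 1) ^ n := by rw [Finset.card_map, card_box]
  have hB'c : B'.card = (2 * (M + N) + 1) ^ n := by rw [Finset.card_map, card_box]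
  have hBB' : ∀ g ∈ B, ∀ h : G, Multiplicative.toAdd h ∈ box n N → g * h ∈ B' := by
    intro g hg h hh
    obtain ⟨g', hg', rfl⟩ := Finset.mem_map.mp hg
    exact Finset.mem_map.mpr ⟨g' + Multiplicative.toAdd h, box_add hg' hh, rfl⟩
  have hmul : ∀ (t : SkewMonoidAlgebra K G), (∀ g ∈ t.support, Multiplicative.toAdd g ∈ box n N) →
      ∀ c : G →₀ K, c ∈ Finsupp.supported K K (B : Set G) →
        ((SkewMonoidAlgebra.ofCoeff c) * t).coeff ∈ Finsupp.supported K K (B' : Set G) := by
    intro t ht c hc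
    rw [Finsupp.mem_supported] at hc ⊢
    intro x hx
    have h1 : x ∈ ((SkewMonoidAlgebra.ofCoeff c) * t).support := hx
    have h2 := SkewMonoidAlgebra.support_mul _ _ h1
    obtain ⟨g, hg, h, hh, rfl⟩ := Finset.mem_mul.mp h2
    exact hBB' g (hc hg) h (ht h hh)
  let f : (Finsupp.supported K K (B : Set G)) × (Finsupp.supported K K (B : Set G)) →ₗ[K]
      (Finsupp.supported K K (B' : Set G)) :=
    { toFun := fun c => ⟨((SkewMonoidAlgebra.ofCoeff c.1.1) * r -
        (SkewMonoidAlgebra.ofCoeff c.2.1) * s).coeff, by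
          rw [SkewMonoidAlgebra.coeff_sub]
          exact Submodule.sub_mem _ (hmul r hr _ c.1.2) (hmul s hs' _ c.2.2)⟩
      map_add' := by
        intro c c'
        apply Subtype.ext
        simp only [Prod.fst_add, Prod.snd_add, Submodule.coe_add, SkewMonoidAlgebra.ofCoeff_add,
          add_mul]
        rw [← SkewMonoidAlgebra.coeff_add]
        congr 1
        abel
      map_smul' := by
        intro k c
        apply Subtype.ext
        simp only [Prod.smul_fst, Prod.smul_snd, Submodule.coe_smul, RingHom.id_apply]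
        have hsm : ∀ (c : G →₀ K) (t : SkewMonoidAlgebra K G),
            (SkewMonoidAlgebra.ofCoeff (k • c)) * t = k • ((SkewMonoidAlgebra.ofCoeff c) * t) := by
          intro c t
          rw [SkewMonoidAlgebra.ofCoeff_smul]
          ext x
          rw [SkewMonoidAlgebra.coeff_smul]
          have hsm2 : (k • (SkewMonoidAlgebra.ofCoeff c : SkewMonoidAlgebra K G)) =
              SkewMonoidAlgebra.single 1 k * SkewMonoidAlgebra.ofCoeff c := by
            ext y
            rw [SkewMonoidAlgebra.coeff_smul]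
            rw [SkewMonoidAlgebra.coeff_single_mul_aux (z := y) _ (by simp)]
            simp
          rw [hsm2, mul_assoc]
          rw [SkewMonoidAlgebra.coeff_single_mul_aux (z := x) _ (by simp)]
          simp
        rw [hsm, hsm, ← smul_sub, SkewMonoidAlgebra.coeff_smul] }
  have hker : ∃ c, f c = 0 ∧ c ≠ 0 := by
    let e : (↥(B : Set G) → K) ≃ₗ[K] (Finsupp.supported K K (B : Set G)) :=
      (Finsupp.linearEquivFunOnFinite K K ↥(B : Set G)).symm ≪≫ₗ
        (Finsupp.supportedEquivFinsupp (M := K) (R := K) (B : Set G)).symm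
    let e' : (↥(B' : Set G) → K) ≃ₗ[K] (Finsupp.supported K K (B' : Set G)) :=
      (Finsupp.linearEquivFunOnFinite K K ↥(B' : Set G)).symm ≪≫ₗ
        (Finsupp.supportedEquivFinsupp (M := K) (R := K) (B' : Set G)).symm
    let g : ((↥(B : Set G) → K) × (↥(B : Set G) → K)) →ₗ[K] (↥(B' : Set G) → K) :=
      e'.symm.toLinearMap ∘ₗ f ∘ₗ (e.toLinearMap.prodMap e.toLinearMap)
    have hg : ∃ c, c ≠ 0 ∧ g c = 0 := by
      by_contra hcon
      push Not at hcon
      have hinj : Function.Injective g := by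
        rw [injective_iff_map_eq_zero]
        intro a ha
        by_contra ha0
        exact hcon a ha0 ha
      have h1 := LinearMap.finrank_le_finrank_of_injective hinj
      rw [Module.finrank_prod, Module.finrank_pi, Module.finrank_pi] at h1
      simp only [Finset.coe_sort_coe, Fintype.card_coe, hBc, hB'c] at h1
      omega
    obtain ⟨c, hc0, hc⟩ := hg
    refine ⟨(e c.1, e c.2), ?_, ?_⟩
    · have h1 : e'.symm (f (e c.1, e c.2)) = 0 := hc
      rw [← map_zero e'.symm] at h1
      exact e'.symm.injective h1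
    · intro h1
      apply hc0
      have h2 := congrArg Prod.fst h1
      have h3 := congrArg Prod.snd h1
      simp only [Prod.fst_zero, Prod.snd_zero] at h2 h3
      rw [← map_zero e] at h2 h3
      exact Prod.ext (e.injective h2) (e.injective h3)
  obtain ⟨c, hc, hc0⟩ := hker
  have h1 : (SkewMonoidAlgebra.ofCoeff c.1.1 : SkewMonoidAlgebra K G) * r =
      (SkewMonoidAlgebra.ofCoeff c.2.1) * s := by
    have h2 := congrArg Subtype.val hc
    have h3 : ((SkewMonoidAlgebra.ofCoeff c.1.1 : SkewMonoidAlgebra K G) * r -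
      (SkewMonoidAlgebra.ofCoeff c.2.1) * s).coeff = 0 := h2
    rw [SkewMonoidAlgebra.coeff_eq_zero] at h3
    exact sub_eq_zero.mp h3
  refine ⟨_, _, ?_, h1⟩
  intro h0
  rw [h0, zero_mul] at h1
  have h2 : (SkewMonoidAlgebra.ofCoeff c.2.1 : SkewMonoidAlgebra K G) = 0 :=
    (mul_eq_zero.mp h1.symm).resolve_right hs
  apply hc0
  rw [SkewMonoidAlgebra.ofCoeff_eq_zero] at h0 h2
  exact Prod.ext (Subtype.ext h0) (Subtype.ext h2)

end Ore

end Pool.Agent.Helper678.SkewDiv
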