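import Mathlib

set_option autoImplicit false

namespace Pool.Agent.Helper678.WeylAbs

open Topology

variable {F : Type} [DivisionRing F]

/-- Elements commuting with all pairs of index at least `k`. -/
def C (x d : ℕ → F) (k : ℕ) : Set F :=
  {w | ∀ i, k ≤ i → Commute w (x i) ∧ Commute w (d i)}

/-- The inner derivation by `y`. -/
def ad (y w : F) : F := y * w - w * y

theorem ad_zero (y : F) : ad y 0 = 0 := by simp [ad]

theorem ad_add (y a b : F) : ad y (a + b) = ad y a + ad y b := by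
  simp only [ad]; noncomm_ring

theorem ad_mul (y a b : F) : ad y (a * b) = ad y a * b + a * ad y b := by
  simp only [ad]; noncomm_ring

theorem ad_iter_zero (y : F) (n : ℕ) : (ad y)^[n] 0 = 0 := by
  induction n with
  | zero => rfl
  | succ n ih => rw [Function.iterate_succ_apply, ad_zero, ih]

theorem ad_iter_add (y : F) (n : ℕ) (a b : F) :
    (ad y)^[n] (a + b) = (ad y)^[n] a + (ad y)^[n] b := by
  induction n generalizing a b with
  | zero => rfl
  | succ n ih => rw [Function.iterate_succ_apply, ad_add, ih]; rfl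

theorem ad_iter_mono (y : F) {m n : ℕ} (h : m ≤ n) {a : F} (ha : (ad y)^[m] a = 0) :
    (ad y)^[n] a = 0 := by
  obtain ⟨k, rfl⟩ := Nat.exists_eq_add_of_le h
  rw [Nat.add_comm, Function.iterate_add_apply, ha, ad_iter_zero]

theorem ad_iter_mul (y : F) : ∀ (k m n : ℕ), m + n = k → ∀ a b : F,
    (ad y)^[m] a = 0 → (ad y)^[n] b = 0 → (ad y)^[m + n] (a * b) = 0 := by
  intro k
  induction k with
  | zero =>
    intro m n h a b ha hb
    have hm : m = 0 := by omega
    have hn : n = 0 := by omega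
    subst hm; subst hn
    simp only [Function.iterate_zero, id] at ha
    simp [ha]
  | succ k ih =>
    intro m n h a b ha hb
    rcases m with _ | m
    · simp only [Function.iterate_zero, id] at ha
      rw [ha, zero_mul, ad_iter_zero]
    rcases n with _ | n
    · simp only [Function.iterate_zero, id] at hb
      rw [hb, mul_zero, ad_iter_zero]
    have e : m + 1 + (n + 1) = (m + n + 1) + 1 := by ring
    rw [e, Function.iterate_succ_apply, ad_mul, ad_iter_add]
    have h1 : (ad y)^[m + n + 1] (ad y a * b) = 0 := by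
      have := ih m (n + 1) (by omega) (ad y a) b (by rwa [← Function.iterate_succ_apply]) hb
      rwa [← add_assoc] at this
    have h2 : (ad y)^[m + n + 1] (a * ad y b) = 0 := by
      have := ih (m + 1) n (by omega) a (ad y b) ha (by rwa [← Function.iterate_succ_apply])
      have e2 : m + 1 + n = m + n + 1 := by ring
      rwa [e2] at this
    rw [h1, h2, add_zero]

theorem ad_inv_pow (x d : F) (h : d * x - x * d = 1) (hd : d ≠ 0) (j : ℕ) :
    ad x ((d⁻¹) ^ (j + 1)) = ((j + 1 : ℕ) : F) * (d⁻¹) ^ (j + 2) := by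
  have h0 : ad x d⁻¹ = d⁻¹ * d⁻¹ := by
    have h1 : d * (ad x d⁻¹) * d = 1 := by
      simp only [ad, mul_sub, sub_mul]
      rw [mul_assoc d (x * d⁻¹) d, mul_assoc x d⁻¹ d, inv_mul_cancel₀ hd, mul_one,
        ← mul_assoc d d⁻¹ x, mul_inv_cancel₀ hd, one_mul]
      exact h
    have h2 : ad x d⁻¹ = d⁻¹ * (d * (ad x d⁻¹) * d) * d⁻¹ := by
      rw [mul_assoc d, ← mul_assoc d⁻¹ d, inv_mul_cancel₀ hd, one_mul, mul_assoc,
        mul_inv_cancel₀ hd, mul_one]
    rw [h2, h1, mul_one]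
  induction j with
  | zero => simp [h0, pow_two]
  | succ j ih =>
    rw [pow_succ, ad_mul, ih, h0]
    push_cast
    rw [mul_assoc, ← pow_succ, ← mul_assoc, ← pow_succ, ← pow_succ]
    have e : j + 1 + 1 + 1 = j + 1 + 2 := by ring
    have e' : j + 2 + 1 = j + 1 + 2 := by ring
    rw [e, e']
    noncomm_ring

theorem ad_iter_inv (x d : F) (h : d * x - x * d = 1) (hd : d ≠ 0) (n : ℕ) :
    (ad x)^[n] d⁻¹ = ((n.factorial : ℕ) : F) * (d⁻¹) ^ (n + 1) := by
  have hc : ∀ (c : ℕ) (w : F), ad x ((c : F) * w) = (c : F) * ad x w := by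
    intro c w
    rw [ad_mul]
    have : ad x (c : F) = 0 := by
      simp [ad, (Nat.cast_commute c x).eq]
    rw [this, zero_mul, zero_add]
  induction n with
  | zero => simp
  | succ n ih =>
    rw [Function.iterate_succ_apply', ih, hc, ad_inv_pow x d h hd, Nat.factorial_succ,
      ← mul_assoc]
    push_cast
    congr 1
    have := Nat.cast_commute (n.factorial) ((n : F) + 1)
    exact this.eq

/-- The `ad (x k)`-nilpotent elements of `C (k + 1)`. -/
def Nk (x d : ℕ → F) (k : ℕ) : Set F :=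
  {w | w ∈ C x d (k + 1) ∧ ∃ n, (ad (x k))^[n] w = 0}

theorem C_zero (x d : ℕ → F) (k : ℕ) : (0 : F) ∈ C x d k :=
  fun i _ => ⟨Commute.zero_left _, Commute.zero_left _⟩

theorem C_add {x d : ℕ → F} {k : ℕ} {a b : F} (ha : a ∈ C x d k) (hb : b ∈ C x d k) :
    a + b ∈ C x d k :=
  fun i hi => ⟨(ha i hi).1.add_left (hb i hi).1, (ha i hi).2.add_left (hb i hi).2⟩

theorem C_neg {x d : ℕ → F} {k : ℕ} {a : F} (ha : a ∈ C x d k) : -a ∈ C x d k :=
  fun i hi => ⟨(ha i hi).1.neg_left, (ha i hi).2.neg_left⟩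

theorem C_mul {x d : ℕ → F} {k : ℕ} {a b : F} (ha : a ∈ C x d k) (hb : b ∈ C x d k) :
    a * b ∈ C x d k :=
  fun i hi => ⟨(ha i hi).1.mul_left (hb i hi).1, (ha i hi).2.mul_left (hb i hi).2⟩

theorem C_inv {x d : ℕ → F} {k : ℕ} {a : F} (ha : a ∈ C x d k) : a⁻¹ ∈ C x d k :=
  fun i hi => ⟨(ha i hi).1.inv_left₀, (ha i hi).2.inv_left₀⟩

theorem C_mono {x d : ℕ → F} {k l : ℕ} (h : k ≤ l) : C x d k ⊆ C x d l :=
  fun _ ha i hi => ha i (h.trans hi)

/-- The data: commuting Weyl pairs. -/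
structure Pairs (x d : ℕ → F) : Prop where
  rel : ∀ k, d k * x k - x k * d k = 1
  xx : ∀ i j, i ≠ j → Commute (x i) (x j)
  dd : ∀ i j, i ≠ j → Commute (d i) (d j)
  xd : ∀ i j, i ≠ j → Commute (x i) (d j)
  fin : ∀ w : F, ∃ k, w ∈ C x d k

variable {x d : ℕ → F}

theorem d_ne (h : Pairs x d) (k : ℕ) : d k ≠ 0 := by
  intro h0
  have := h.rel k
  simp [h0] at this

theorem x_ne (h : Pairs x d) (k : ℕ) : x k ≠ 0 := by
  intro h0
  have := h.rel k
  simp [h0] at this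

theorem x_mem (h : Pairs x d) (k : ℕ) : x k ∈ C x d (k + 1) :=
  fun i hi => ⟨h.xx k i (by omega), h.xd k i (by omega)⟩

theorem d_mem (h : Pairs x d) (k : ℕ) : d k ∈ C x d (k + 1) :=
  fun i hi => ⟨(h.xd i k (by omega)).symm, h.dd k i (by omega)⟩

theorem C_sub_Nk {k : ℕ} {a : F} (ha : a ∈ C x d k) : a ∈ Nk x d k := by
  refine ⟨C_mono (Nat.le_succ k) ha, 1, ?_⟩
  have := (ha k le_rfl).1
  simp [ad, this.eq]

theorem x_mem_Nk (h : Pairs x d) (k : ℕ) : x k ∈ Nk x d k :=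
  ⟨x_mem h k, 1, by simp [ad]⟩

theorem d_mem_Nk (h : Pairs x d) (k : ℕ) : d k ∈ Nk x d k := by
  refine ⟨d_mem h k, 2, ?_⟩
  have h1 : ad (x k) (d k) = -1 := by
    have := h.rel k
    rw [← this]
    simp [ad]
  change ad (x k) (ad (x k) (d k)) = 0
  rw [h1]
  simp [ad]

theorem Nk_add {k : ℕ} {a b : F} (ha : a ∈ Nk x d k) (hb : b ∈ Nk x d k) : a + b ∈ Nk x d k := by
  obtain ⟨ha1, m, hm⟩ := ha
  obtain ⟨hb1, n, hn⟩ := hb
  refine ⟨C_add ha1 hb1, max m n, ?_⟩
  rw [ad_iter_add, ad_iter_mono _ (le_max_left _ _) hm, ad_iter_mono _ (le_max_right _ _) hn,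
    add_zero]

theorem Nk_mul {k : ℕ} {a b : F} (ha : a ∈ Nk x d k) (hb : b ∈ Nk x d k) : a * b ∈ Nk x d k := by
  obtain ⟨ha1, m, hm⟩ := ha
  obtain ⟨hb1, n, hn⟩ := hb
  exact ⟨C_mul ha1 hb1, m + n, ad_iter_mul _ _ m n rfl a b hm hn⟩

theorem one_mem_Nk (k : ℕ) : (1 : F) ∈ Nk x d k :=
  C_sub_Nk fun _ _ => ⟨Commute.one_left _, Commute.one_left _⟩

theorem neg_mem_Nk {k : ℕ} {a : F} (ha : a ∈ Nk x d k) : -a ∈ Nk x d k := by
  have h1 : (-1 : F) ∈ Nk x d k := C_sub_Nk fun _ _ =>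
    ⟨(Commute.one_left _).neg_left, (Commute.one_left _).neg_left⟩
  have := Nk_mul h1 ha
  simpa using this

theorem inv_not_mem_Nk [CharZero F] (h : Pairs x d) (k : ℕ) : (d k)⁻¹ ∉ Nk x d k := by
  rintro ⟨_, n, hn⟩
  rw [ad_iter_inv (x k) (d k) (h.rel k) (d_ne h k)] at hn
  rcases mul_eq_zero.mp hn with h1 | h1
  · exact Nat.factorial_ne_zero n (by exact_mod_cast h1)
  · exact pow_ne_zero _ (inv_ne_zero (d_ne h k)) h1

/-- The left ideal generated by `d k` in `Nk`. -/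
def T (x d : ℕ → F) (k : ℕ) : AddSubgroup F where
  carrier := {a | ∃ w ∈ Nk x d k, a = w * d k}
  zero_mem' := ⟨0, C_sub_Nk (C_zero x d k), by simp⟩
  add_mem' := by
    rintro _ _ ⟨a, ha, rfl⟩ ⟨b, hb, rfl⟩
    exact ⟨a + b, Nk_add ha hb, by rw [add_mul]⟩
  neg_mem' := by
    rintro _ ⟨a, ha, rfl⟩
    exact ⟨-a, neg_mem_Nk ha, by rw [neg_mul]⟩

theorem T_sub_C (h : Pairs x d) {k : ℕ} {a : F} (ha : a ∈ T x d k) : a ∈ C x d (k + 1) := by
  obtain ⟨w, hw, rfl⟩ := ha
  exact C_mul hw.1 (d_mem h k)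

/-- Sums of elements of `T k` for `N ≤ k < M`. -/
def P (x d : ℕ → F) (N : ℕ) : ℕ → AddSubgroup F
  | 0 => ⊥
  | M + 1 => P x d N M ⊔ (if N ≤ M then T x d M else ⊥)

theorem P_mono (N : ℕ) : Monotone (P x d N) :=
  monotone_nat_of_le_succ fun _ => le_sup_left

theorem T_le_P {N k : ℕ} (h : N ≤ k) : T x d k ≤ P x d N (k + 1) := by
  rw [P, if_pos h]
  exact le_sup_right

/-- The neighbourhoods of zero. -/
def J (x d : ℕ → F) (N : ℕ) : AddSubgroup F := ⨆ M, P x d N M

theorem mem_J {N : ℕ} {a : F} : a ∈ J x d N ↔ ∃ M, a ∈ P x d N M :=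
  AddSubgroup.mem_iSup_of_directed (P_mono N).directed_le

theorem T_le_J {N k : ℕ} (h : N ≤ k) : T x d k ≤ J x d N :=
  (T_le_P h).trans (le_iSup (P x d N) (k + 1))

theorem J_le {N : ℕ} {S : AddSubgroup F} (h : ∀ k, N ≤ k → T x d k ≤ S) : J x d N ≤ S := by
  apply iSup_le
  intro M
  induction M with
  | zero => exact bot_le
  | succ M ih =>
    rw [P]
    apply sup_le ih
    split_ifs with hM
    · exact h M hM
    · exact bot_le

theorem J_anti {N N' : ℕ} (h : N ≤ N') : J x d N' ≤ J x d N :=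
  J_le fun _ hk => T_le_J (h.trans hk)

theorem P_sub_C (h : Pairs x d) (N : ℕ) : ∀ M, ∀ a ∈ P x d N M, a ∈ C x d M := by
  intro M
  induction M with
  | zero =>
    intro a ha
    rw [P, AddSubgroup.mem_bot] at ha
    rw [ha]; exact C_zero x d 0
  | succ M ih =>
    intro a ha
    rw [P, AddSubgroup.mem_sup] at ha
    obtain ⟨b, hb, c, hc, rfl⟩ := ha
    apply C_add (C_mono (Nat.le_succ M) (ih b hb))
    split_ifs at hc with hM
    · exact T_sub_C h hc
    · rw [AddSubgroup.mem_bot] at hc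
      rw [hc]; exact C_zero x d _

theorem T_inter_C [CharZero F] (h : Pairs x d) {k : ℕ} {a : F} (ha : a ∈ T x d k)
    (hC : a ∈ C x d k) : a = 0 := by
  by_contra hne
  obtain ⟨w, hw, rfl⟩ := ha
  apply inv_not_mem_Nk h k
  have h1 : (d k)⁻¹ = (w * d k)⁻¹ * w := by
    have hw0 : w ≠ 0 := left_ne_zero_of_mul hne
    rw [mul_inv_rev, mul_assoc, inv_mul_cancel₀ hw0, mul_one]
  rw [h1]
  exact Nk_mul (C_sub_Nk (C_inv hC)) hw

theorem P_inter_C [CharZero F] (h : Pairs x d) (N : ℕ) : ∀ M, ∀ a ∈ P x d N M, a ∈ C x d N →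
    a = 0 := by
  intro M
  induction M with
  | zero =>
    intro a ha _
    rwa [P, AddSubgroup.mem_bot] at ha
  | succ M ih =>
    intro a ha haC
    rw [P, AddSubgroup.mem_sup] at ha
    obtain ⟨b, hb, c, hc, rfl⟩ := ha
    split_ifs at hc with hM
    · have hbC : b ∈ C x d M := P_sub_C h N M b hb
      have hcC : c ∈ C x d M := by
        have : c = (b + c) + -b := by abel
        rw [this]
        exact C_add (C_mono hM haC) (C_neg hbC)
      have hc0 : c = 0 := T_inter_C h hc hcC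
      rw [hc0, add_zero] at haC ⊢
      exact ih b hb haC
    · rw [AddSubgroup.mem_bot] at hc
      rw [hc, add_zero] at haC ⊢
      exact ih b hb haC

theorem J_inter_C [CharZero F] (h : Pairs x d) {N : ℕ} {a : F} (ha : a ∈ J x d N)
    (haC : a ∈ C x d N) : a = 0 := by
  obtain ⟨M, hM⟩ := mem_J.mp ha
  exact P_inter_C h N M a hM haC

theorem C_mul_J {N : ℕ} {c a : F} (hc : c ∈ C x d N) (ha : a ∈ J x d N) : c * a ∈ J x d N := by
  have : J x d N ≤ (J x d N).comap (AddMonoidHom.mulLeft c) := by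
    apply J_le
    rintro k hk _ ⟨w, hw, rfl⟩
    rw [AddSubgroup.mem_comap, AddMonoidHom.coe_mulLeft]
    apply T_le_J hk
    exact ⟨c * w, Nk_mul (C_sub_Nk (C_mono hk hc)) hw, by rw [mul_assoc]⟩
  exact this ha

theorem J_mul_C {N : ℕ} {c a : F} (hc : c ∈ C x d N) (ha : a ∈ J x d N) : a * c ∈ J x d N := by
  have : J x d N ≤ (J x d N).comap (AddMonoidHom.mulRight c) := by
    apply J_le
    rintro k hk _ ⟨w, hw, rfl⟩
    rw [AddSubgroup.mem_comap, AddMonoidHom.mulRight_apply]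
    apply T_le_J hk
    refine ⟨w * c, Nk_mul hw (C_sub_Nk (C_mono hk hc)), ?_⟩
    rw [mul_assoc, mul_assoc, ((hc k hk).2).eq]
  exact this ha

theorem J_mul_J (h : Pairs x d) {N : ℕ} {a b : F} (ha : a ∈ J x d N) (hb : b ∈ J x d N) :
    a * b ∈ J x d N := by
  have h1 : ∀ k, N ≤ k → ∀ l, N ≤ l → ∀ a ∈ T x d k, ∀ b ∈ T x d l, a * b ∈ J x d N := by
    rintro k hk l hl a ha b hb
    rcases lt_trichotomy k l with hkl | hkl | hkl
    · have haC : a ∈ C x d l := C_mono hkl (T_sub_C h ha)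
      obtain ⟨w, hw, rfl⟩ := hb
      apply T_le_J hl
      exact ⟨a * w, Nk_mul (C_sub_Nk haC) hw, by rw [mul_assoc]⟩
    · subst hkl
      obtain ⟨w, hw, rfl⟩ := ha
      obtain ⟨w', hw', rfl⟩ := hb
      apply T_le_J hk
      exact ⟨w * d k * w', Nk_mul (Nk_mul hw (d_mem_Nk h k)) hw', by rw [mul_assoc, mul_assoc,
        mul_assoc]⟩
    · have hbC : b ∈ C x d k := C_mono hkl (T_sub_C h hb)
      obtain ⟨w, hw, rfl⟩ := ha
      apply T_le_J hk
      refine ⟨w * b, Nk_mul hw (C_sub_Nk hbC), ?_⟩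
      rw [mul_assoc, mul_assoc, ((hbC k le_rfl).2).eq]
  have h2 : ∀ k, N ≤ k → ∀ a ∈ T x d k, ∀ b ∈ J x d N, a * b ∈ J x d N := by
    intro k hk a ha b hb
    have : J x d N ≤ (J x d N).comap (AddMonoidHom.mulLeft a) := by
      apply J_le
      intro l hl b hb
      rw [AddSubgroup.mem_comap, AddMonoidHom.coe_mulLeft]
      exact h1 k hk l hl a ha b hb
    exact this hb
  have : J x d N ≤ (J x d N).comap (AddMonoidHom.mulRight b) := by
    apply J_le
    intro k hk a ha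
    rw [AddSubgroup.mem_comap, AddMonoidHom.mulRight_apply]
    exact h2 k hk a ha b hb
  exact this ha

/-- The ring filter basis. -/
@[instance_reducible]
def basis (h : Pairs x d) : RingFilterBasis F where
  sets := Set.range fun N => (J x d N : Set F)
  nonempty := ⟨_, 0, rfl⟩
  inter_sets := by
    rintro _ _ ⟨m, rfl⟩ ⟨n, rfl⟩
    exact ⟨J x d (max m n), ⟨_, rfl⟩, fun y hy =>
      ⟨J_anti (le_max_left _ _) hy, J_anti (le_max_right _ _) hy⟩⟩
  zero' := by
    rintro _ ⟨m, rfl⟩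
    exact (J x d m).zero_mem
  add' := by
    rintro _ ⟨m, rfl⟩
    refine ⟨_, ⟨m, rfl⟩, ?_⟩
    rintro _ ⟨a, ha, b, hb, rfl⟩
    exact (J x d m).add_mem ha hb
  neg' := by
    rintro _ ⟨m, rfl⟩
    refine ⟨_, ⟨m, rfl⟩, ?_⟩
    intro a ha
    exact (J x d m).neg_mem ha
  conj' := by
    rintro y _ ⟨m, rfl⟩
    refine ⟨_, ⟨m, rfl⟩, ?_⟩
    intro z hz
    simpa using hz
  mul' := by
    rintro _ ⟨m, rfl⟩
    refine ⟨_, ⟨m, rfl⟩, ?_⟩
    rintro _ ⟨a, ha, b, hb, rfl⟩
    exact J_mul_J h ha hb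
  mul_left' := by
    rintro y _ ⟨m, rfl⟩
    obtain ⟨n, hn⟩ := h.fin y
    refine ⟨_, ⟨max m n, rfl⟩, ?_⟩
    intro a ha
    exact J_anti (le_max_left _ _) (C_mul_J (C_mono (le_max_right m n) hn) ha)
  mul_right' := by
    rintro y _ ⟨m, rfl⟩
    obtain ⟨n, hn⟩ := h.fin y
    refine ⟨_, ⟨max m n, rfl⟩, ?_⟩
    intro a ha
    exact J_anti (le_max_left _ _) (J_mul_C (C_mono (le_max_right m n) hn) ha)

theorem tendsto_of_mem (h : Pairs x d) (a : ℕ → F) (ha : ∀ k, a k ∈ T x d k) :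
    Filter.Tendsto a Filter.atTop (@nhds F (basis h).topology 0) := by
  rw [(basis h).toAddGroupFilterBasis.nhds_zero_hasBasis.tendsto_right_iff]
  rintro _ ⟨m, rfl⟩
  filter_upwards [Filter.eventually_ge_atTop m] with k hk
  exact T_le_J hk (ha k)

theorem t2 [CharZero F] (h : Pairs x d) : @T2Space F (basis h).topology := by
  let _ := (basis h).topology
  rw [(basis h).toAddGroupFilterBasis.t2Space_iff_sInter_subset rfl]
  intro a ha
  rw [Set.mem_singleton_iff]
  obtain ⟨n, hn⟩ := h.fin a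
  exact J_inter_C h (ha _ ⟨n, rfl⟩) hn

/-- The topology has no coarser Hausdorff ring topology with continuous inversion. -/
theorem main [CharZero F] (h : Pairs x d) (σ : TopologicalSpace F)
    (hσ : (basis h).topology ≤ σ) (hring : @IsTopologicalRing F σ _) (hT2 : @T2Space F σ)
    (hinv : ∀ y : F, y ≠ 0 → @ContinuousAt F F σ σ (fun z => z⁻¹) y) : False := by
  have ht : ∀ a : ℕ → F, (∀ k, a k ∈ T x d k) → Filter.Tendsto a Filter.atTop (𝓝 (0 : F)) := by
    intro a ha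
    exact (tendsto_of_mem h a ha).mono_right (nhds_mono hσ)
  have h1 : Filter.Tendsto d Filter.atTop (𝓝 (0 : F)) :=
    ht d fun k => ⟨1, one_mem_Nk k, by simp⟩
  have h2 : Filter.Tendsto (fun k => x k * d k) Filter.atTop (𝓝 (0 : F)) :=
    ht _ fun k => ⟨x k, x_mem_Nk h k, rfl⟩
  have h3 : Filter.Tendsto (fun k => x k * x k * d k) Filter.atTop (𝓝 (0 : F)) :=
    ht _ fun k => ⟨x k * x k, Nk_mul (x_mem_Nk h k) (x_mem_Nk h k), rfl⟩
  have h4 : Filter.Tendsto (fun k => (1 + x k * d k)⁻¹) Filter.atTop (𝓝 (1 : F)) := by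
    have h5 : Filter.Tendsto (fun k => 1 + x k * d k) Filter.atTop (𝓝 (1 : F)) := by
      simpa using (tendsto_const_nhds (x := (1 : F))).add h2
    have h6 := hinv 1 one_ne_zero
    rw [ContinuousAt, inv_one] at h6
    exact h6.comp h5
  have h5 : Filter.Tendsto (fun k => x k * x k * d k * (1 + x k * d k)⁻¹ * d k)
      Filter.atTop (𝓝 (0 : F)) := by
    have := (h3.mul h4).mul h1
    simpa using this
  have h6 : ∀ k, x k * x k * d k * (1 + x k * d k)⁻¹ * d k = x k * d k - 1 := by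
    intro k
    have hd := d_ne h k
    have hx := x_ne h k
    have e1 : 1 + x k * d k = d k * x k := by
      rw [← h.rel k]; abel
    rw [e1, mul_inv_rev]
    rw [mul_assoc (x k * x k * d k), mul_assoc (x k)⁻¹, inv_mul_cancel₀ hd, mul_one]
    have e2 : x k * d k * (x k)⁻¹ = d k - (x k)⁻¹ := by
      have : x k * d k = d k * x k - 1 := by rw [← h.rel k]; abel
      rw [this, sub_mul, one_mul, mul_assoc, mul_inv_cancel₀ hx, mul_one]
    rw [mul_assoc (x k) (x k) (d k), mul_assoc (x k), e2, mul_sub, mul_inv_cancel₀ hx]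
  have h7 : Filter.Tendsto (fun k => x k * d k - 1) Filter.atTop (𝓝 ((0 : F) - 1)) :=
    h2.sub tendsto_const_nhds
  have h8 : (0 : F) = 0 - 1 := by
    refine tendsto_nhds_unique h5 ?_
    simp only [h6]
    exact h7
  simp at h8

end Pool.Agent.Helper678.WeylAbs
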