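import Mathlib
import Pool.Agent.Helper678.SkewDiv
import Pool.Agent.Helper678.WeylAbs

set_option autoImplicit false

namespace Pool.Agent.Helper678.WeylField

open MvPolynomial nonZeroDivisors

abbrev P : Type := MvPolynomial ℕ ℚ
abbrev G : Type := SkewDiv.G

/-- The shift. -/
noncomputable def shift (g : G) : P →ₐ[ℚ] P :=
  aeval (fun i => X i + C (((Multiplicative.toAdd g) i : ℤ) : ℚ))

theorem shift_X (g : G) (i : ℕ) :
    shift g (X i) = X i + C (((Multiplicative.toAdd g) i : ℤ) : ℚ) := by
  simp [shift]

theorem shift_one : shift 1 = AlgHom.id ℚ P := by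
  apply MvPolynomial.algHom_ext
  intro i
  rw [shift_X]
  simp

theorem shift_mul (g h : G) : shift (g * h) = (shift g).comp (shift h) := by
  apply MvPolynomial.algHom_ext
  intro i
  rw [AlgHom.comp_apply, shift_X, shift_X, map_add, shift_X]
  have : shift g (C (((Multiplicative.toAdd h) i : ℤ) : ℚ)) =
      C (((Multiplicative.toAdd h) i : ℤ) : ℚ) := by
    exact (shift g).commutes _
  rw [this]
  simp only [toAdd_mul, Finsupp.add_apply, Int.cast_add, map_add]
  ring

noncomputable instance act : MulSemiringAction G P where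
  smul g p := shift g p
  one_smul p := by
    change shift 1 p = p
    rw [shift_one]; rfl
  mul_smul g h p := by
    change shift (g * h) p = shift g (shift h p)
    rw [shift_mul]; rfl
  smul_zero g := map_zero (shift g)
  smul_add g p q := map_add (shift g) p q
  smul_one g := map_one (shift g)
  smul_mul g p q := map_mul (shift g) p q

theorem smul_def (g : G) (p : P) : g • p = shift g p := rfl

abbrev K : Type := FractionRing P

noncomputable instance actK : MulSemiringAction G K := IsFractionRing.mulSemiringAction G P K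

theorem smul_algebraMap' (g : G) (p : P) : g • (algebraMap P K p) = algebraMap P K (g • p) := by
  have := IsFractionRing.smulDistribClass G P K
  exact (algebraMap.coe_smul' g p K).symm

/-- The skew group ring. -/
abbrev A : Type := SkewMonoidAlgebra K G

instance : NoZeroDivisors A := SkewDiv.noZeroDivisors

instance : Nontrivial A := by
  refine ⟨⟨SkewMonoidAlgebra.single 1 1, 0, ?_⟩⟩
  intro h
  have := congrArg (fun t => t.coeff 1) h
  simp at this

theorem nonempty_ore : Nonempty (OreLocalization.OreSet (nonZeroDivisors A)) := by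
  rw [OreLocalization.nonempty_oreSet_iff_of_noZeroDivisors]
  intro r s
  obtain ⟨r', s', hs', h⟩ := SkewDiv.ore r s.1 (nonZeroDivisors.ne_zero s.2)
  exact ⟨r', ⟨s', mem_nonZeroDivisors_of_ne_zero hs'⟩, h⟩

noncomputable instance : OreLocalization.OreSet (nonZeroDivisors A) := nonempty_ore.some

/-- The big division ring. -/
abbrev D : Type := OreLocalization (nonZeroDivisors A) A

noncomputable instance : DivisionRing D := inferInstance

/-- The embedding. -/
noncomputable def ι : A →+* D := OreLocalization.numeratorRingHom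

theorem ι_inj : Function.Injective ι := by
  apply OreLocalization.numeratorHom_inj
  intro a ha
  exact ha.1


/-- group elements -/
noncomputable def e (k : ℕ) : G := Multiplicative.ofAdd (Finsupp.single k 1)

noncomputable def dA (k : ℕ) : A := SkewMonoidAlgebra.single (e k) 1
noncomputable def dA' (k : ℕ) : A := SkewMonoidAlgebra.single (e k)⁻¹ 1
noncomputable def t (k : ℕ) : K := algebraMap P K (X k)
noncomputable def tA (k : ℕ) : A := SkewMonoidAlgebra.single 1 (t k)

theorem e_smul_t (i k : ℕ) : e i • t k = t k + (if i = k then 1 else 0) := by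
  rw [t, smul_algebraMap', smul_def, shift_X, map_add]
  congr 1
  rw [e, toAdd_ofAdd, Finsupp.single_apply]
  split_ifs <;> simp

theorem dA_mul_dA' (k : ℕ) : dA k * dA' k = 1 := by
  rw [dA, dA', SkewMonoidAlgebra.single_mul_single]
  simp

theorem dA'_mul_dA (k : ℕ) : dA' k * dA k = 1 := by
  rw [dA, dA', SkewMonoidAlgebra.single_mul_single]
  simp

theorem dA_comm (i k : ℕ) : Commute (dA i) (dA k) := by
  change dA i * dA k = dA k * dA i
  rw [dA, dA, SkewMonoidAlgebra.single_mul_single, SkewMonoidAlgebra.single_mul_single]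
  simp [mul_comm]

theorem tA_comm (i k : ℕ) : Commute (tA i) (tA k) := by
  change tA i * tA k = tA k * tA i
  rw [tA, tA, SkewMonoidAlgebra.single_mul_single, SkewMonoidAlgebra.single_mul_single]
  simp [mul_comm]

theorem dA_tA (i k : ℕ) (h : i ≠ k) : Commute (dA i) (tA k) := by
  change dA i * tA k = tA k * dA i
  rw [dA, tA, SkewMonoidAlgebra.single_mul_single, SkewMonoidAlgebra.single_mul_single, e_smul_t]
  simp [h]

theorem dA_tA_self (k : ℕ) : dA k * tA k = tA k * dA k + dA k := by
  rw [dA, tA, SkewMonoidAlgebra.single_mul_single, SkewMonoidAlgebra.single_mul_single, e_smul_t]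
  simp [SkewMonoidAlgebra.single_add]

noncomputable def d (k : ℕ) : D := ι (dA k)
noncomputable def d' (k : ℕ) : D := ι (dA' k)
noncomputable def x (k : ℕ) : D := ι (tA k) * d' k

theorem d_mul_d' (k : ℕ) : d k * d' k = 1 := by
  rw [d, d', ← map_mul, dA_mul_dA', map_one]

theorem d'_mul_d (k : ℕ) : d' k * d k = 1 := by
  rw [d, d', ← map_mul, dA'_mul_dA, map_one]

theorem dd (i k : ℕ) : Commute (d i) (d k) := by
  have := congrArg ι (dA_comm i k).eq
  rwa [map_mul, map_mul] at this

theorem d'_comm {w : D} (k : ℕ) (h : Commute w (d k)) : Commute w (d' k) := by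
  change w * d' k = d' k * w
  calc w * d' k = (d' k * d k) * (w * d' k) := by rw [d'_mul_d, one_mul]
    _ = d' k * (d k * w) * d' k := by noncomm_ring
    _ = d' k * (w * d k) * d' k := by rw [h.eq]
    _ = d' k * w * (d k * d' k) := by noncomm_ring
    _ = d' k * w := by rw [d_mul_d', mul_one]

theorem tt (i k : ℕ) : Commute (ι (tA i)) (ι (tA k)) := by
  have := congrArg ι (tA_comm i k).eq
  rwa [map_mul, map_mul] at this

theorem dt (i k : ℕ) (h : i ≠ k) : Commute (d i) (ι (tA k)) := by
  have := congrArg ι (dA_tA i k h).eq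
  rwa [map_mul, map_mul] at this

theorem dt_self (k : ℕ) : d k * ι (tA k) = ι (tA k) * d k + d k := by
  have := congrArg ι (dA_tA_self k)
  rwa [map_add, map_mul, map_mul] at this

theorem rel (k : ℕ) : d k * x k - x k * d k = 1 := by
  rw [x, ← mul_assoc, dt_self, add_mul, mul_assoc, d_mul_d', mul_one, mul_assoc, d'_mul_d, mul_one]
  abel

theorem dx (i k : ℕ) (h : i ≠ k) : Commute (d i) (x k) :=
  (dt i k h).mul_right (d'_comm k (dd i k))

theorem xx (i k : ℕ) (h : i ≠ k) : Commute (x i) (x k) := by
  have h1 : Commute (d i) (x k) := dx i k h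
  have h2 : Commute (d' i) (x k) := (d'_comm i h1.symm).symm
  have h3 : Commute (ι (tA i)) (x k) :=
    (tt i k).mul_right (d'_comm k (dt k i (Ne.symm h)).symm)
  exact h3.mul_left h2

theorem single_inj : Function.Injective (SkewMonoidAlgebra.singleOneRingHom : K →+* A) := by
  intro a b h
  have := congrArg (fun t => t.coeff 1) h
  simpa [SkewMonoidAlgebra.singleOneRingHom] using this

instance : CharZero A := charZero_of_injective_ringHom single_inj

instance : CharZero D := charZero_of_injective_ringHom ι_inj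

/-- The division subring of elements commuting with almost all pairs. -/
noncomputable def F : Subfield D where
  carrier := {w | ∃ k, w ∈ WeylAbs.C x d k}
  mul_mem' := by
    rintro a b ⟨k, hk⟩ ⟨l, hl⟩
    refine ⟨max k l, fun i hi => ⟨?_, ?_⟩⟩
    · exact (hk i (le_trans (le_max_left _ _) hi)).1.mul_left (hl i (le_trans (le_max_right _ _) hi)).1
    · exact (hk i (le_trans (le_max_left _ _) hi)).2.mul_left (hl i (le_trans (le_max_right _ _) hi)).2
  one_mem' := ⟨0, fun i _ => ⟨Commute.one_left _, Commute.one_left _⟩⟩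
  add_mem' := by
    rintro a b ⟨k, hk⟩ ⟨l, hl⟩
    refine ⟨max k l, fun i hi => ⟨?_, ?_⟩⟩
    · exact (hk i (le_trans (le_max_left _ _) hi)).1.add_left (hl i (le_trans (le_max_right _ _) hi)).1
    · exact (hk i (le_trans (le_max_left _ _) hi)).2.add_left (hl i (le_trans (le_max_right _ _) hi)).2
  zero_mem' := ⟨0, fun i _ => ⟨Commute.zero_left _, Commute.zero_left _⟩⟩
  neg_mem' := by
    rintro a ⟨k, hk⟩
    exact ⟨k, fun i hi => ⟨(hk i hi).1.neg_left, (hk i hi).2.neg_left⟩⟩
  inv_mem' := by
    rintro a ⟨k, hk⟩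
    exact ⟨k, fun i hi => ⟨(hk i hi).1.inv_left₀, (hk i hi).2.inv_left₀⟩⟩

theorem x_mem (k : ℕ) : x k ∈ F :=
  ⟨k + 1, fun i hi => ⟨xx k i (by omega), (dx i k (by omega)).symm⟩⟩

theorem d_mem (k : ℕ) : d k ∈ F :=
  ⟨k + 1, fun i hi => ⟨dx k i (by omega), dd k i⟩⟩

noncomputable def xF (k : ℕ) : F := ⟨x k, x_mem k⟩
noncomputable def dF (k : ℕ) : F := ⟨d k, d_mem k⟩

theorem pairs : WeylAbs.Pairs xF dF where
  rel k := Subtype.ext (rel k)
  xx i j h := Subtype.ext (xx i j h).eq
  xd i j h := Subtype.ext (dx j i (Ne.symm h)).symm.eq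
  dd i j h := Subtype.ext (dd i j).eq
  fin w := by
    obtain ⟨k, hk⟩ := w.2
    exact ⟨k, fun i hi => ⟨Subtype.ext (hk i hi).1.eq, Subtype.ext (hk i hi).2.eq⟩⟩

instance : CharZero F := inferInstance

end Pool.Agent.Helper678.WeylField
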